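import Pool.Agent.Helper20.FR.Spec

/-! Part P3 of helper20's FR project (MP_3c0690_nt). -/

open Polynomial Filter

namespace Pool.Agent.Helper72.FR

open Pool.Agent.Helper20.FR

universe u

section
variable {k : Type u} [Field k] {F : Type}

lemma dvd_of_mem_span {v : F → k[X]} {c x : k[X]} (h : ∀ f, c ∣ v f)
    (hx : x ∈ Ideal.span (Set.range v)) : c ∣ x := by
  have h1 : Ideal.span (Set.range v) ≤ Ideal.span {c} := by
    rw [Ideal.span_le]
    rintro _ ⟨f, rfl⟩
    exact Ideal.mem_span_singleton.2 (h f)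
  exact Ideal.mem_span_singleton.1 (h1 hx)

lemma exists_gen (v : F → k[X]) : ∃ g : k[X], (∀ f, g ∣ v f) ∧ g ∈ Ideal.span (Set.range v) := by
  obtain ⟨g, hg⟩ := (IsPrincipalIdealRing.principal (Ideal.span (Set.range v))).principal
  refine ⟨g, fun f => ?_, ?_⟩
  · have h1 : v f ∈ Ideal.span (Set.range v) := Ideal.subset_span ⟨f, rfl⟩
    rw [hg] at h1
    exact Ideal.mem_span_singleton.1 h1
  · rw [hg]
    exact Submodule.mem_span_singleton_self g

lemma prim_iff {v : F → k[X]} : Prim v ↔ (1 : k[X]) ∈ Ideal.span (Set.range v) := by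
  constructor
  · intro h
    obtain ⟨g, hg1, hg2⟩ := exists_gen v
    have h2 := h g hg1
    exact Ideal.eq_top_iff_one _ |>.1 (Ideal.eq_top_of_isUnit_mem _ hg2 h2)
  · intro h c hc
    exact isUnit_of_dvd_one (dvd_of_mem_span hc h)

lemma exists_content {v : F → k[X]} (hv : v ≠ 0) : ∃ (e : k[X]) (q : F → k[X]), e.Monic ∧
    Prim q ∧ ∀ f, v f = e * q f := by
  obtain ⟨g, hg1, hg2⟩ := exists_gen v
  have hg0 : g ≠ 0 := by
    rintro rfl
    apply hv
    funext f
    exact zero_dvd_iff.1 (hg1 f)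
  set e := g * C g.leadingCoeff⁻¹ with he
  have hem : e.Monic := monic_mul_leadingCoeff_inv hg0
  have heg : e ∣ g := by
    refine ⟨C g.leadingCoeff, ?_⟩
    rw [he, mul_assoc, ← C_mul, inv_mul_cancel₀ (leadingCoeff_ne_zero.2 hg0), C_1, mul_one]
  have he2 : e ∈ Ideal.span (Set.range v) := Ideal.mul_mem_right _ _ hg2
  have hd : ∀ f, ∃ q, v f = e * q := fun f => heg.trans (hg1 f)
  choose q hq using hd
  refine ⟨e, q, hem, ?_, hq⟩
  intro c hc
  have h1 : ∀ f, e * c ∣ v f := fun f => by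
    rw [hq f]
    exact mul_dvd_mul_left e (hc f)
  have h2 : e * c ∣ e * 1 := by
    rw [mul_one]
    exact dvd_of_mem_span h1 he2
  exact isUnit_of_dvd_one ((mul_dvd_mul_iff_left hem.ne_zero).1 h2)

lemma prim_pow {q : F → k[X]} (hq : Prim q) (r : ℕ) : Prim fun f => q f ^ r := by
  intro c hc
  by_contra hcu
  have hc0 : c ≠ 0 := by
    rintro rfl
    have h1 : ∀ f, (0 : k[X]) ∣ q f := fun f => by
      have h2 : q f ^ r = 0 := zero_dvd_iff.1 (hc f)
      have h3 : r ≠ 0 := by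
        rintro rfl
        rw [pow_zero] at h2
        exact one_ne_zero h2
      exact zero_dvd_iff.2 ((pow_eq_zero_iff h3).1 h2)
    exact not_isUnit_zero (hq 0 h1)
  obtain ⟨i, hi, hic⟩ := WfDvdMonoid.exists_irreducible_factor hcu hc0
  exact hi.not_isUnit (hq i fun f => hi.prime.dvd_of_dvd_pow (hic.trans (hc f)))

variable [Fintype F] [DecidableEq F]

lemma dvd_delta {B B' : Matrix F F k[X]} {δ : k[X]} (hB : B' * B = δ • (1 : Matrix F F k[X]))
    {q : F → k[X]} (hq : Prim q) {r : ℕ} {e : k[X]}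
    (h : ∀ f, e ∣ (B.mulVec fun f => q f ^ r) f) : e ∣ δ := by
  have h1 : ∀ f, e ∣ δ * q f ^ r := by
    intro f
    have h2 : (B'.mulVec (B.mulVec fun f => q f ^ r)) f = δ * q f ^ r := by
      rw [Matrix.mulVec_mulVec, hB, Matrix.smul_mulVec, Matrix.one_mulVec]
      rfl
    rw [← h2]
    exact Finset.dvd_sum fun g _ => (h g).mul_left _
  have h2 := prim_iff.1 (prim_pow hq r)
  have h3 : e ∣ δ * 1 := by
    refine Submodule.span_induction (p := fun x _ => e ∣ δ * x) ?_ ?_ ?_ ?_ h2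
    · rintro _ ⟨f, rfl⟩
      exact h1 f
    · rw [mul_zero]
      exact dvd_zero e
    · intro x y _ _ hx hy
      rw [mul_add]
      exact dvd_add hx hy
    · intro a x _ hx
      rw [smul_eq_mul, mul_left_comm]
      exact hx.mul_left a
  rwa [mul_one] at h3

lemma step_cong {p : ℕ} [Fact p.Prime] [CharP k p] {s : ℕ} (hs : 1 ≤ s)
    {B B' : Matrix F F k[X]} {δ : k[X]} (hB : B' * B = δ • (1 : Matrix F F k[X]))
    {q q' p1 p2 : F → k[X]} {e e' : k[X]} (hq : Prim q) (hq' : Prim q') (hp1 : Prim p1)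
    (hp2 : Prim p2) (he : e.Monic) (he' : e'.Monic)
    (h1 : ∀ f, (B.mulVec fun f => q f ^ p ^ s) f = e * p1 f)
    (h2 : ∀ f, (B.mulVec fun f => q' f ^ p ^ s) f = e' * p2 f)
    (h : ∀ f, δ ∣ q f - q' f) : e = e' ∧ ∀ f, δ ∣ p1 f - p2 f := by
  have hr : 2 ≤ p ^ s := by
    calc 2 ≤ p := (Fact.out : p.Prime).two_le
      _ = p ^ 1 := (pow_one p).symm
      _ ≤ p ^ s := Nat.pow_le_pow_right (Fact.out : p.Prime).pos hs
  have hed : e ∣ δ := dvd_delta hB hq fun f => ⟨p1 f, h1 f⟩
  have hed' : e' ∣ δ := dvd_delta hB hq' fun f => ⟨p2 f, h2 f⟩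
  have h3 : ∀ f, δ ^ p ^ s ∣ (B.mulVec fun f => q f ^ p ^ s) f -
      (B.mulVec fun f => q' f ^ p ^ s) f := by
    intro f
    simp only [Matrix.mulVec, dotProduct]
    rw [← Finset.sum_sub_distrib]
    refine Finset.dvd_sum fun g _ => ?_
    rw [← mul_sub, ← sub_pow_char_pow]
    exact (pow_dvd_pow_of_dvd (h g) _).mul_left _
  have hdd : δ ∣ δ ^ p ^ s := dvd_pow_self δ (by omega)
  have h4 : ∀ f, e ∣ e' * p2 f := by
    intro f
    have h5 : e' * p2 f = e * p1 f - ((B.mulVec fun f => q f ^ p ^ s) f -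
      (B.mulVec fun f => q' f ^ p ^ s) f) := by
      rw [h1, h2]
      ring
    rw [h5]
    exact dvd_sub (Dvd.intro _ rfl) ((hed.trans hdd).trans (h3 f))
  have h4' : ∀ f, e' ∣ e * p1 f := by
    intro f
    have h5 : e * p1 f = e' * p2 f + ((B.mulVec fun f => q f ^ p ^ s) f -
      (B.mulVec fun f => q' f ^ p ^ s) f) := by
      rw [h1, h2]
      ring
    rw [h5]
    exact dvd_add (Dvd.intro _ rfl) ((hed'.trans hdd).trans (h3 f))
  have key : ∀ {a b : k[X]} {v : F → k[X]}, Prim v → (∀ f, a ∣ b * v f) → a ∣ b := by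
    intro a b v hv hab
    have h6 : a ∣ b * 1 := by
      refine Submodule.span_induction (p := fun x _ => a ∣ b * x) ?_ ?_ ?_ ?_ (prim_iff.1 hv)
      · rintro _ ⟨f, rfl⟩
        exact hab f
      · rw [mul_zero]
        exact dvd_zero a
      · intro x y _ _ hx hy
        rw [mul_add]
        exact dvd_add hx hy
      · intro c x _ hx
        rw [smul_eq_mul, mul_left_comm]
        exact hx.mul_left c
    rwa [mul_one] at h6
  have hee : e = e' := eq_of_monic_of_associated he he'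
    (associated_of_dvd_dvd (key hp2 h4) (key hp1 h4'))
  refine ⟨hee, fun f => ?_⟩
  obtain ⟨m, hm⟩ := hed
  obtain ⟨x, hx⟩ := h3 f
  have h7 : e * (p1 f - p2 f) = e * (δ ^ (p ^ s - 1) * m * x) := by
    have h8 : δ ^ p ^ s = δ ^ (p ^ s - 1) * δ := by
      rw [← pow_succ]
      congr 1
      omega
    have h9 : e * (p1 f - p2 f) = e * p1 f - e' * p2 f := by
      rw [← hee]
      ring
    rw [h9, ← h1, ← h2, hx, h8]
    conv_lhs => rw [hm]
    conv_rhs => rw [hm]
    ring
  have h10 := mul_left_cancel₀ he.ne_zero h7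
  rw [h10]
  have h11 : δ ∣ δ ^ (p ^ s - 1) := dvd_pow_self δ (by omega)
  exact (h11.mul_right m).mul_right x

end

/-- P3 -/
theorem rp (hFS : S_FS) : S_RP.{u} := by
  intro k _ _ p _ _ s hs F _ _ B B' δ hδ hB u hu hu0
  have hr : 2 ≤ p ^ s := by
    calc 2 ≤ p := (Fact.out : p.Prime).two_le
      _ = p ^ 1 := (pow_one p).symm
      _ ≤ p ^ s := Nat.pow_le_pow_right (Fact.out : p.Prime).pos hs
  -- one step
  have hw0 : ∀ q : F → k[X], Prim q → (B.mulVec fun f => q f ^ p ^ s) ≠ 0 := by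
    intro q hq h0
    have h1 : δ ∣ 0 → False := fun _ => by
      have h2 : (B'.mulVec (B.mulVec fun f => q f ^ p ^ s)) = 0 := by
        rw [h0, Matrix.mulVec_zero]
      rw [Matrix.mulVec_mulVec, hB, Matrix.smul_mulVec, Matrix.one_mulVec] at h2
      have h3 : ∀ f, (0 : k[X]) ∣ q f := by
        intro f
        have h4 := congrFun h2 f
        have h5 : δ * q f ^ p ^ s = 0 := h4
        have h6 := (mul_eq_zero.1 h5).resolve_left hδ
        exact zero_dvd_iff.2 ((pow_eq_zero_iff (by omega)).1 h6)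
      exact not_isUnit_zero (hq 0 h3)
    exact h1 (dvd_zero δ)
  have hstep : ∀ q : {q : F → k[X] // Prim q}, ∃ eq : k[X] × {q : F → k[X] // Prim q},
      eq.1.Monic ∧ ∀ f, (B.mulVec fun f => q.1 f ^ p ^ s) f = eq.1 * eq.2.1 f := by
    intro q
    obtain ⟨e, q', he, hq', h⟩ := exists_content (hw0 q.1 q.2)
    exact ⟨(e, ⟨q', hq'⟩), he, h⟩
  choose nx hnx1 hnx2 using hstep
  obtain ⟨e0, q0, he0, hq0, h0⟩ := exists_content hu0
  let st : ℕ → {q : F → k[X] // Prim q} := fun j => Nat.rec ⟨q0, hq0⟩ (fun _ q => (nx q).2) j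
  have hst : ∀ j, st (j + 1) = (nx (st j)).2 := fun j => rfl
  let e : ℕ → k[X] := fun j => (nx (st j)).1
  let c : ℕ → k[X] := fun j => Nat.rec e0 (fun j cj => cj ^ p ^ s * e j) j
  have hc : ∀ j, c (j + 1) = c j ^ p ^ s * e j := fun j => rfl
  have he : ∀ j, (e j).Monic := fun j => hnx1 (st j)
  have hcm : ∀ j, (c j).Monic := by
    intro j
    induction j with
    | zero => exact he0
    | succ j ih => rw [hc]; exact (ih.pow _).mul (he j)
  have huc : ∀ j, u j = c j • (st j).1 := by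
    intro j
    induction j with
    | zero => funext f; exact h0 f
    | succ j ih =>
      rw [hu, ih]
      have h1 : (fun f => (c j • (st j).1) f ^ p ^ s) =
          c j ^ p ^ s • fun f => (st j).1 f ^ p ^ s := by
        funext f
        show (c j * (st j).1 f) ^ p ^ s = c j ^ p ^ s * (st j).1 f ^ p ^ s
        rw [mul_pow]
      rw [h1, Matrix.mulVec_smul]
      funext f
      show c j ^ p ^ s * (B.mulVec fun f => (st j).1 f ^ p ^ s) f = c (j + 1) * (st (j + 1)).1 f
      rw [hnx2 (st j) f, hc, hst, mul_assoc]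
  refine ⟨c, fun j => (st j).1, fun j => ⟨(hcm j).ne_zero, (st j).2, huc j⟩, ?_⟩
  -- finite state
  have hfin : Finite (AdjoinRoot δ) := by
    have : Module.Finite k (AdjoinRoot δ) := (AdjoinRoot.powerBasis hδ).finite
    exact Module.finite_of_finite k
  have hex : ∃ i i' : ℕ, i ≠ i' ∧ (fun f => AdjoinRoot.mk δ ((st i).1 f)) =
      (fun f => AdjoinRoot.mk δ ((st i').1 f)) :=
    Finite.exists_ne_map_eq_of_infinite
      (fun j : ℕ => (fun f => AdjoinRoot.mk δ ((st j).1 f) : F → AdjoinRoot δ))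
  have hex' : ∃ i P : ℕ, 0 < P ∧ ∀ f, δ ∣ (st (i + P)).1 f - (st i).1 f := by
    obtain ⟨i, i', hne, heq⟩ := hex
    rcases lt_or_gt_of_ne hne with h | h
    · refine ⟨i, i' - i, by omega, fun f => ?_⟩
      rw [show i + (i' - i) = i' by omega]
      exact AdjoinRoot.mk_eq_mk.1 (congrFun heq f).symm
    · refine ⟨i', i - i', by omega, fun f => ?_⟩
      rw [show i' + (i - i') = i by omega]
      exact AdjoinRoot.mk_eq_mk.1 (congrFun heq f)
  obtain ⟨i, P, hP, hi⟩ := hex'
  have hall : ∀ l, (∀ f, δ ∣ (st (i + P + l)).1 f - (st (i + l)).1 f) := by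
    intro l
    induction l with
    | zero => exact hi
    | succ l ih =>
      have h1 := step_cong hs hB (st (i + P + l)).2 (st (i + l)).2 (nx (st (i + P + l))).2.2
        (nx (st (i + l))).2.2 (he (i + P + l)) (he (i + l)) (hnx2 (st (i + P + l)))
        (hnx2 (st (i + l))) ih
      exact h1.2
  have hee : ∀ l, e (i + P + l) = e (i + l) := fun l =>
    (step_cong hs hB (st (i + P + l)).2 (st (i + l)).2 (nx (st (i + P + l))).2.2
        (nx (st (i + l))).2.2 (he (i + P + l)) (he (i + l)) (hnx2 (st (i + P + l)))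
        (hnx2 (st (i + l))) (hall l)).1
  have hdeg : ∀ j, ((c (j + 1)).natDegree : ℤ) =
      ((p ^ s : ℕ) : ℤ) * (c j).natDegree + (e j).natDegree := by
    intro j
    rw [hc, ((hcm j).pow _).natDegree_mul (he j), (hcm j).natDegree_pow]
    push_cast
    ring
  refine hFS (p ^ s) hr _ i P hP fun l => ?_
  induction l with
  | zero => simp
  | succ l ih =>
    have h1 := hdeg (i + P + l)
    have h2 := hdeg (i + l)
    rw [hee l] at h1
    have e1 : i + P + (l + 1) = i + P + l + 1 := by ring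
    have e2 : i + (l + 1) = i + l + 1 := by ring
    simp only [e1, e2] at *
    rw [h1, h2, pow_succ]
    linear_combination ((p ^ s : ℕ) : ℤ) * ih

end Pool.Agent.Helper72.FR
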