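import Pool.Agent.Helper20.FR.Spec

/-! Parts P4a, P4b, P4c of helper20's FR project (MP_3c0690_nt). -/

open Polynomial Filter

namespace Pool.Agent.Helper72.FR

open Pool.Agent.Helper20.FR

universe u

/-- P4a -/
theorem pla : S_PLa.{u} := by
  intro S _ ι ι' _ _ κ M Y f
  have h1 : (Matrix.of fun a b => (M * Y) (f a) b : Matrix (Fin κ) (Fin κ) S) =
      Matrix.of (fun a => ∑ i, M (f a) i • (fun b => Y i b)) := by
    ext a b
    simp [Matrix.mul_apply, Finset.sum_apply]
  unfold mnr
  rw [h1]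
  have h2 : (Matrix.of (fun a => ∑ i, M (f a) i • (fun b => Y i b)) :
      Matrix (Fin κ) (Fin κ) S).det =
      ∑ g : Fin κ → ι, (Matrix.of fun a => M (f a) (g a) • (fun b => Y (g a) b)).det :=
    (Matrix.detRowAlternating (R := S) (n := Fin κ)).toMultilinearMap.map_sum
      (fun a i => M (f a) i • (fun b => Y i b))
  rw [h2]
  refine Finset.sum_congr rfl fun g _ => ?_
  have h3 : (Matrix.of fun a => M (f a) (g a) • (fun b => Y (g a) b) :
      Matrix (Fin κ) (Fin κ) S).det =
      (∏ a, M (f a) (g a)) • (Matrix.of fun a => (fun b => Y (g a) b)).det :=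
    (Matrix.detRowAlternating (R := S) (n := Fin κ)).toMultilinearMap.map_smul_univ
      (fun a => M (f a) (g a)) (fun a => (fun b => Y (g a) b))
  rw [h3]
  rfl

/-- P4b -/
theorem plb : S_PLb.{u} := by
  intro S _ ι ι' ι'' _ _ κ M M'
  ext f g
  rw [Matrix.mul_apply]
  simp only [kpow, Matrix.of_apply, Matrix.mul_apply]
  rw [Finset.prod_univ_sum, Fintype.piFinset_univ]
  refine Finset.sum_congr rfl fun h _ => ?_
  rw [Finset.prod_mul_distrib]

/-- P4c -/
theorem plc : S_PLc.{u} := by
  intro S _ ι _ _ κ c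
  ext f g
  simp only [kpow, Matrix.of_apply, Matrix.smul_apply, Matrix.one_apply, smul_eq_mul]
  rw [Finset.prod_mul_distrib, Finset.prod_const, Finset.card_univ, Fintype.card_fin]
  congr 1
  by_cases h : f = g
  · subst h
    simp
  · rw [if_neg h]
    obtain ⟨a, ha⟩ := Function.ne_iff.1 h
    exact Finset.prod_eq_zero (Finset.mem_univ a) (if_neg ha)

end Pool.Agent.Helper72.FR
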