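import Pool.Agent.Helper20.FR.Spec

/-! Part P6 of helper20's FR project (MP_3c0690_nt). -/

open Polynomial Filter

namespace Pool.Agent.Helper72.FR

open Pool.Agent.Helper20.FR

universe u

lemma mnr_pow {ι : Type} {S : Type u} [CommRing S] {p : ℕ} [Fact p.Prime] [CharP S p] (s : ℕ)
    {κ : ℕ} (Y : Matrix ι (Fin κ) S) (f : Fin κ → ι) :
    mnr (Y.map fun z => z ^ p ^ s) f = mnr Y f ^ p ^ s := by
  have h1 := (iterateFrobenius S p s).map_det (Matrix.of fun a b => Y (f a) b)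
  rw [iterateFrobenius_def] at h1
  unfold mnr
  rw [h1]
  congr 1

/-- P6 -/
theorem cnt (hRP : S_RP.{u}) (hA : S_PLa.{u}) (hB : S_PLb.{u}) (hC : S_PLc.{u})
    (hMN : S_MN.{u}) : S_CNT.{u} := by
  intro k _ _ p _ _ s hs N _ _ A hdet κ Y hY hLI
  have hδ : A.det ^ κ ≠ 0 := pow_ne_zero _ hdet
  have hBB : kpow κ A.adjugate * kpow κ A =
      (A.det ^ κ) • (1 : Matrix (Fin κ → N) (Fin κ → N) k[X]) := by
    rw [← hB, Matrix.adjugate_mul, hC]
  have hu : ∀ j, (fun f => mnr (Y (j + 1)) f) =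
      (kpow κ A).mulVec fun f => (fun j f => mnr (Y j) f) j f ^ p ^ s := by
    intro j
    funext f
    show mnr (Y (j + 1)) f = ∑ g, kpow κ A f g * mnr (Y j) g ^ p ^ s
    rw [hY, hA]
    exact Finset.sum_congr rfl fun g _ => by rw [mnr_pow]
  have hu0 : (fun f => mnr (Y 0) f) ≠ 0 := by
    obtain ⟨f, hf⟩ := (hMN k N κ (Y 0)).1 hLI
    intro h0
    exact hf (congrFun h0 f)
  obtain ⟨c, q, hcq, hg⟩ := hRP k p s hs (Fin κ → N) (kpow κ A) (kpow κ A.adjugate)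
    (A.det ^ κ) hδ hBB (fun j f => mnr (Y j) f) hu hu0
  exact ⟨c, q, fun j => ⟨(hcq j).1, (hcq j).2.1, fun f => congrFun (hcq j).2.2 f⟩, hg⟩

end Pool.Agent.Helper72.FR
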